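import Mathlib

open Filter Topology MeasureTheory Set

namespace Pool.Agent.Results.MP_395e41_an.Counter

section Defs
variable {X Y : Type} [NormedAddCommGroup X] [NormedSpace ℝ X] [NormedAddCommGroup Y]

/-- Admissible controls: measurable on `[0, ∞)`, with values in `U` almost everywhere. -/
def Adm (U : Set Y) (u : ℝ → Y) : Prop :=
  AEStronglyMeasurable u (volume.restrict (Ici 0)) ∧ ∀ᵐ t ∂(volume.restrict (Ici 0)), u t ∈ U

/-- `y` solves `y' = f (y, u)`, `y 0 = x₀` on `[0, ∞)` (integral form). -/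
def IsSol (f : X → Y → X) (u : ℝ → Y) (x₀ : X) (y : ℝ → X) : Prop :=
  ∀ t, 0 ≤ t → IntervalIntegrable (fun s => f (y s) (u s)) volume 0 t ∧
    y t = x₀ + ∫ s in (0 : ℝ)..t, f (y s) (u s)

/-- `φ` is the solution map of the system: existence, uniqueness, continuity in `x₀`. -/
def IsSolMap (f : X → Y → X) (U : Set Y) (φ : ℝ → X → (ℝ → Y) → X) : Prop :=
  ∀ u, Adm U u → (∀ x₀, IsSol f u x₀ (fun t => φ t x₀ u) ∧
    ∀ y, IsSol f u x₀ y → ∀ t, 0 ≤ t → y t = φ t x₀ u) ∧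
    ∀ t, 0 ≤ t → Continuous fun x₀ => φ t x₀ u

/-- `𝒦ℒ`-functions. -/
def IsKL (ζ : ℝ → ℝ → ℝ) : Prop :=
  ContinuousOn (fun p : ℝ × ℝ => ζ p.1 p.2) (Ici 0 ×ˢ Ici 0) ∧
  (∀ r s, 0 ≤ r → 0 ≤ s → 0 ≤ ζ r s) ∧
  (∀ s, 0 ≤ s → ζ 0 s = 0 ∧ StrictMonoOn (fun r => ζ r s) (Ici 0)) ∧
  (∀ r, 0 < r → StrictAntiOn (ζ r) (Ici 0)) ∧ ∀ r, 0 ≤ r → Tendsto (ζ r) atTop (𝓝 0)

/-- Stabilizability for `ζ, Γ, Λ`. -/
def Stabilizable (U : Set Y) (φ : ℝ → X → (ℝ → Y) → X) (ζ : ℝ → ℝ → ℝ) (Γ Λ : Set X) : Prop :=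
  ∀ x₀ ∈ Γ, ∃ u, Adm U u ∧ ∀ t, 0 ≤ t →
    Metric.infDist (φ t x₀ u) Λ ≤ ζ (Metric.infDist x₀ Λ) t

/-- `S` is spanning with extra tolerance `η` (`η = 0`: spanning; `η = ε`: practically
spanning). -/
def Spanning (U : Set Y) (φ : ℝ → X → (ℝ → Y) → X) (ζ : ℝ → ℝ → ℝ) (Γ Λ : Set X) (τ ε η : ℝ)
    (S : Set (ℝ → Y)) : Prop :=
  (∀ u ∈ S, Adm U u) ∧ ∀ x₀ ∈ Γ, ∃ u ∈ S, ∀ t ∈ Icc 0 τ,
    Metric.infDist (φ t x₀ u) Λ ≤ ζ (Metric.infDist x₀ Λ + ε) t + η

/-- Minimal cardinality of a spanning set (`⊤` if there is no finite one). -/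
noncomputable def minCard (U : Set Y) (φ : ℝ → X → (ℝ → Y) → X) (ζ : ℝ → ℝ → ℝ) (Γ Λ : Set X)
    (τ ε η : ℝ) : ℕ∞ :=
  ⨅ (S : Set (ℝ → Y)) (_ : Spanning U φ ζ Γ Λ τ ε η S), S.encard

/-- Exponential growth rate `limsup (1 / τ) log r(τ)`. -/
noncomputable def rate (r : ℝ → ℕ∞) : EReal :=
  limsup (fun τ : ℝ => ENNReal.log (r τ : ENNReal) / (τ : EReal)) atTop

/-- Stabilization entropy. -/
noncomputable def hs (U : Set Y) (φ : ℝ → X → (ℝ → Y) → X) (ζ : ℝ → ℝ → ℝ) (Γ Λ : Set X) :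
    EReal :=
  limsup (fun ε : ℝ => rate fun τ => minCard U φ ζ Γ Λ τ ε 0) (𝓝[>] 0)

/-- Practical stabilization entropy. -/
noncomputable def hps (U : Set Y) (φ : ℝ → X → (ℝ → Y) → X) (ζ : ℝ → ℝ → ℝ) (Γ Λ : Set X) :
    EReal :=
  limsup (fun ε : ℝ => rate fun τ => minCard U φ ζ Γ Λ τ ε ε) (𝓝[>] 0)

end Defs

noncomputable def ph (t x₀ : ℝ) (u : ℝ → ℝ) : ℝ := x₀ + ∫ s in (0 : ℝ)..t, u s

noncomputable def ze (r s : ℝ) : ℝ := r * Real.exp (-s)

noncomputable def ctl (y s : ℝ) : ℝ := -y * Real.exp (-s)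

lemma adm_int {u : ℝ → ℝ} (h : Adm (Icc (-1) 1) u) {t : ℝ} (ht : 0 ≤ t) :
    IntervalIntegrable u volume 0 t := by
  rw [intervalIntegrable_iff_integrableOn_Ioc_of_le ht]
  have hs : Ioc 0 t ⊆ Ici (0 : ℝ) := fun s hs => hs.1.le
  refine Integrable.of_bound ?_ 1 ?_
  · exact h.1.mono_measure (Measure.restrict_mono hs le_rfl)
  · filter_upwards [ae_restrict_of_ae_restrict_of_subset hs h.2] with s hs
    exact abs_le.2 hs

lemma adm_ctl {y : ℝ} (hy : y ∈ Icc (0 : ℝ) 1) : Adm (Icc (-1) 1) (ctl y) := by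
  constructor
  · apply Continuous.aestronglyMeasurable
    unfold ctl
    fun_prop
  · filter_upwards [ae_restrict_mem measurableSet_Ici] with s hs
    have h1 : Real.exp (-s) ≤ 1 := Real.exp_le_one_iff.2 (by simpa using hs)
    have h2 := Real.exp_pos (-s)
    obtain ⟨h3, h4⟩ := hy
    constructor
    · unfold ctl
      nlinarith
    · unfold ctl
      nlinarith

lemma ph_ctl (t x y : ℝ) : ph t x (ctl y) = x - y + y * Real.exp (-t) := by
  unfold ph ctl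
  rw [intervalIntegral.integral_const_mul, intervalIntegral.integral_comp_neg (fun s => Real.exp s),
    integral_exp]
  simp
  ring

lemma dist0 (x : ℝ) : Metric.infDist x ({0} : Set ℝ) = |x| := by
  rw [Metric.infDist_singleton, Real.dist_eq, sub_zero]

lemma rate_ps {ε : ℝ} (hε : 0 < ε) :
    rate (fun τ => minCard (Icc (-1) 1) ph ze (Icc 0 1) {0} τ ε ε) ≤ 0 := by
  obtain ⟨T, hT1, hT2, hT3⟩ := Metric.finite_approx_of_totallyBounded
    (isCompact_Icc (a := (0 : ℝ)) (b := 1)).totallyBounded ε hε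
  obtain ⟨N, hN⟩ : ∃ N : ℕ, (ctl '' T).encard = N := (hT2.image ctl).exists_encard_eq_coe
  have h1 : ∀ τ, minCard (Icc (-1) 1) ph ze (Icc 0 1) {0} τ ε ε ≤ N := by
    intro τ
    rw [← hN]
    refine iInf₂_le (f := fun (S : Set (ℝ → ℝ))
      (_ : Spanning (Icc (-1) 1) ph ze (Icc 0 1) {0} τ ε ε S) => S.encard) (ctl '' T) ⟨?_, ?_⟩
    · rintro _ ⟨y, hy, rfl⟩
      exact adm_ctl (hT1 hy)
    · intro x hx
      have := hT3 hx
      simp only [mem_iUnion] at this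
      obtain ⟨y, hy, hxy⟩ := this
      refine ⟨_, ⟨y, hy, rfl⟩, fun t _ => ?_⟩
      rw [dist0, dist0, ph_ctl, abs_of_nonneg hx.1, ze]
      rw [Metric.mem_ball, Real.dist_eq, abs_lt] at hxy
      have h2 := Real.exp_pos (-t)
      have h3 := (hT1 hy).1
      have h4 := hx.1
      rw [abs_le]
      constructor <;> nlinarith [hxy.1, hxy.2]
  have h2 : Tendsto (fun τ : ℝ => ((Real.log (N + 1) / τ : ℝ) : EReal)) atTop (𝓝 ((0 : ℝ) : EReal)) :=
    (continuous_coe_real_ereal.tendsto 0).comp (tendsto_const_nhds.div_atTop tendsto_id)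
  rw [rate, ← EReal.coe_zero, ← h2.limsup_eq]
  refine limsup_le_limsup ?_
  filter_upwards [eventually_gt_atTop (0 : ℝ)] with τ hτ
  rw [EReal.coe_div]
  refine EReal.div_le_div_right_of_nonneg (by exact_mod_cast hτ.le) ?_
  rw [← ENNReal.log_ofReal_of_pos (by positivity)]
  refine ENNReal.log_monotone ?_
  have h3 : ((minCard (Icc (-1) 1) ph ze (Icc 0 1) {0} τ ε ε : ℕ∞) : ENNReal) ≤ (N : ℕ∞) :=
    ENat.toENNReal_le.2 (h1 τ)
  refine h3.trans ?_
  rw [ENat.toENNReal_coe, ← ENNReal.ofReal_natCast]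
  exact ENNReal.ofReal_le_ofReal (by linarith)

lemma rate_s {ε : ℝ} (hε : 0 < ε) :
    1 ≤ rate (fun τ => minCard (Icc (-1) 1) ph ze (Icc 0 1) {0} τ ε 0) := by
  have h1 : ∀ τ, 0 ≤ τ → ENNReal.ofReal (Real.exp τ / (2 * (1 + ε))) ≤
      ((minCard (Icc (-1) 1) ph ze (Icc 0 1) {0} τ ε 0 : ℕ∞) : ENNReal) := by
    intro τ hτ
    rw [minCard]
    simp only [ENat.toENNReal_iInf]
    refine le_iInf₂ fun S hS => ?_
    rcases S.finite_or_infinite with hf | hf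
    · obtain ⟨F, rfl⟩ := hf.exists_finset_coe
      have hc : Icc (0 : ℝ) 1 ⊆ ⋃ u ∈ F, Metric.closedBall (-(∫ s in (0 : ℝ)..τ, u s))
          ((1 + ε) * Real.exp (-τ)) := by
        intro x hx
        obtain ⟨u, hu, h⟩ := hS.2 x hx
        have h2 := h τ ⟨hτ, le_rfl⟩
        rw [dist0, dist0, abs_of_nonneg hx.1, ze, ph, add_zero] at h2
        simp only [mem_iUnion]
        refine ⟨u, hu, ?_⟩
        rw [Metric.mem_closedBall, Real.dist_eq, sub_neg_eq_add]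
        have := Real.exp_pos (-τ)
        nlinarith [hx.2]
      have h2 := (measure_mono (μ := volume) hc).trans (measure_biUnion_finset_le F _)
      simp only [Real.volume_Icc, Real.volume_closedBall, Finset.sum_const, nsmul_eq_mul] at h2
      rw [encard_coe_eq_coe_finsetCard, ENat.toENNReal_coe, ← ENNReal.ofReal_natCast]
      rw [← ENNReal.ofReal_natCast, ← ENNReal.ofReal_mul (Nat.cast_nonneg _),
        ENNReal.ofReal_le_ofReal_iff (by positivity)] at h2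
      refine ENNReal.ofReal_le_ofReal ?_
      rw [div_le_iff₀ (by positivity)]
      have h3 : Real.exp (-τ) * Real.exp τ = 1 := by rw [← Real.exp_add]; simp
      have h4 := mul_le_mul_of_nonneg_right h2 (Real.exp_pos τ).le
      calc Real.exp τ = (1 - 0) * Real.exp τ := by ring
        _ ≤ _ := h4
        _ = F.card * (2 * (1 + ε)) * (Real.exp (-τ) * Real.exp τ) := by ring
        _ = _ := by rw [h3, mul_one]
    · rw [hf.encard_eq]
      simp
  have h2 : Tendsto (fun τ : ℝ => ((1 - Real.log (2 * (1 + ε)) / τ : ℝ) : EReal)) atTop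
      (𝓝 ((1 - 0 : ℝ) : EReal)) :=
    (continuous_coe_real_ereal.tendsto _).comp
      (tendsto_const_nhds.sub (tendsto_const_nhds.div_atTop tendsto_id))
  rw [sub_zero] at h2
  rw [rate, ← EReal.coe_one, ← h2.limsup_eq]
  refine limsup_le_limsup ?_
  filter_upwards [eventually_gt_atTop (0 : ℝ)] with τ hτ
  have e : 1 - Real.log (2 * (1 + ε)) / τ = Real.log (Real.exp τ / (2 * (1 + ε))) / τ := by
    rw [Real.log_div (Real.exp_pos τ).ne' (by positivity), Real.log_exp]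
    field_simp
  rw [e, EReal.coe_div]
  refine EReal.div_le_div_right_of_nonneg (by exact_mod_cast hτ.le) ?_
  rw [← ENNReal.log_ofReal_of_pos (by positivity)]
  exact ENNReal.log_monotone (h1 τ hτ.le)

theorem result : ∃ (f : ℝ → ℝ → ℝ) (U Γ Λ : Set ℝ) (φ : ℝ → ℝ → (ℝ → ℝ) → ℝ) (ζ : ℝ → ℝ → ℝ),
    ContDiff ℝ ⊤ (fun p : ℝ × ℝ => f p.1 p.2) ∧ IsCompact U ∧ IsCompact Γ ∧ IsCompact Λ ∧
    U.Nonempty ∧ Γ.Nonempty ∧ Λ.Nonempty ∧ IsSolMap f U φ ∧ IsKL ζ ∧ Stabilizable U φ ζ Γ Λ ∧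
    hps U φ ζ Γ Λ < hs U φ ζ Γ Λ := by
  refine ⟨fun _ v => v, Icc (-1) 1, Icc 0 1, {0}, ph, ze, contDiff_snd, isCompact_Icc,
    isCompact_Icc, isCompact_singleton, ⟨0, by simp⟩, ⟨0, by simp⟩, ⟨0, rfl⟩, ?_, ?_, ?_, ?_⟩
  · intro u hu
    refine ⟨fun x₀ => ⟨fun t ht => ⟨adm_int hu ht, rfl⟩, fun y hy t ht => (hy t ht).2⟩,
      fun t _ => ?_⟩
    unfold ph
    fun_prop
  · refine ⟨?_, fun r s hr _ => mul_nonneg hr (Real.exp_pos _).le, fun s _ => ⟨by simp [ze], ?_⟩,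
      fun r hr => ?_, fun r _ => ?_⟩
    · apply Continuous.continuousOn
      unfold ze
      fun_prop
    · intro a _ b _ hab
      exact mul_lt_mul_of_pos_right hab (Real.exp_pos _)
    · intro a _ b _ hab
      exact mul_lt_mul_of_pos_left (Real.exp_lt_exp.2 (by linarith)) hr
    · have := Real.tendsto_exp_neg_atTop_nhds_zero.const_mul r
      rw [mul_zero] at this
      exact this
  · intro x hx
    refine ⟨ctl x, adm_ctl hx, fun t _ => ?_⟩
    rw [dist0, dist0, ph_ctl, ze, sub_self, zero_add, abs_mul, abs_of_pos (Real.exp_pos _)]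
  · have h1 : hps (Icc (-1) 1) ph ze (Icc 0 1) {0} ≤ 0 := by
      refine limsup_le_of_le ?_ ?_
      · isBoundedDefault
      · filter_upwards [self_mem_nhdsWithin] with ε hε using rate_ps hε
    have h2 : 1 ≤ hs (Icc (-1) 1) ph ze (Icc 0 1) {0} := by
      refine le_limsup_of_frequently_le (Eventually.frequently ?_)
      filter_upwards [self_mem_nhdsWithin] with ε hε using rate_s hε
    exact h1.trans_lt (zero_lt_one.trans_le h2)

end Pool.Agent.Results.MP_395e41_an.Counter
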